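import Pool.Agent.H109.Frac.Comp

/-!
The colouring problem on `r` colours: in every optimal solution any two sets of the two
supports meet in at most one colour, and the value `g*(r)` for all `r`.
Definitions (`marg`, `Feasible`, `value`, `Optimal`) are in `Pool/Agent/H109/Frac/Defs.lean`.
-/

open Finset Pool.Agent.H109.Frac

namespace Pool.Agent.Results.MP_ab344f_co.SingleIntersections

theorem value_of_const {r : ℕ} (hr : 1 ≤ r) {a b : Finset (Fin r) → ℝ} {V : ℝ}
    (h : ∀ i, marg a i + marg b i = V) : value a b = V := by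
  have : Nonempty (Fin r) := ⟨⟨0, hr⟩⟩
  unfold value
  simp only [h]
  exact ciSup_const

/-- The strictness condition when all sums are smaller than `V`. -/
theorem strict_of_lt {r : ℕ} {a b : Finset (Fin r) → ℝ} (h : Feasible a b) {V : ℝ}
    (hlt : ∀ i, marg a i + marg b i < V) :
    ∃ R S, 0 < a R ∧ 0 < b S ∧ 1 / V < ∑ i ∈ R ∩ S, 1 / (marg a i + marg b i) := by
  obtain ⟨R, hR⟩ := exists_pos h.a_nonneg h.a_sum
  obtain ⟨S, hS⟩ := exists_pos h.b_nonneg h.b_sum
  refine ⟨R, S, hR, hS, ?_⟩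
  have hne : (R ∩ S).Nonempty := by
    rw [Finset.nonempty_iff_ne_empty]
    intro h0
    rcases h.meet R S (Finset.disjoint_iff_inter_eq_empty.2 h0) with h1 | h1
    · exact hR.ne' h1
    · exact hS.ne' h1
  obtain ⟨i, hi⟩ := hne
  have hpos : ∀ j ∈ R ∩ S, 0 < marg a j + marg b j := by
    intro j hj
    have := lt_of_lt_of_le hR (le_marg h.a_nonneg (Finset.mem_inter.1 hj).1)
    have := marg_nonneg h.b_nonneg j
    linarith
  calc 1 / V < 1 / (marg a i + marg b i) := one_div_lt_one_div_of_lt (hpos i hi) (hlt i)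
    _ ≤ _ := Finset.single_le_sum (f := fun i => 1 / (marg a i + marg b i))
        (fun j hj => by have := hpos j hj; positivity) hi

/-- The strictness condition when two sets meet twice. -/
theorem strict_of_two {r : ℕ} {a b : Finset (Fin r) → ℝ} (h : Feasible a b) {m : ℝ}
    (hm : ∀ i, marg a i + marg b i ≤ m) {R S : Finset (Fin r)} (hR : 0 < a R) (hS : 0 < b S)
    (h2 : 2 ≤ (R ∩ S).card) :
    ∃ R S, 0 < a R ∧ 0 < b S ∧ 1 / m < ∑ i ∈ R ∩ S, 1 / (marg a i + marg b i) := by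
  refine ⟨R, S, hR, hS, ?_⟩
  have hmpos := m_pos h hm
  have h2R : (2 : ℝ) ≤ (R ∩ S).card := by exact_mod_cast h2
  calc 1 / m < 2 * (1 / m) := by
        have : 0 < 1 / m := by positivity
        linarith
    _ ≤ (R ∩ S).card * (1 / m) := mul_le_mul_of_nonneg_right h2R (by positivity)
    _ = ∑ i ∈ R ∩ S, 1 / m := by rw [Finset.sum_const, nsmul_eq_mul]
    _ ≤ _ := by
        refine Finset.sum_le_sum fun i hi => ?_
        have := lt_of_lt_of_le hR (le_marg h.a_nonneg (Finset.mem_inter.1 hi).1)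
        have := marg_nonneg h.b_nonneg i
        exact one_div_le_one_div_of_le (by linarith) (hm i)

/-- For every `r ≥ 1`: (1) in an optimal solution no two sets of the two supports share two
colours; (2), (3) the value `g*(r)`, for `k² ≤ r ≤ k (k+1)` and for
`k (k+1) ≤ r ≤ (k+1)²`. -/
theorem result (r : ℕ) (hr : 1 ≤ r) :
    (∀ a b : Finset (Fin r) → ℝ, Optimal a b → ¬ ∃ R₁ R₂ : Finset (Fin r),
      2 ≤ (R₁ ∩ R₂).card ∧ 0 < a R₁ ∧ 0 < b R₂) ∧
    (∀ k : ℕ, 1 ≤ k → k ^ 2 ≤ r → r ≤ k * (k + 1) →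
      IsLeast {m : ℝ | ∃ a b : Finset (Fin r) → ℝ, Feasible a b ∧ value a b = m}
        (2 / k + 1 / (k + 1) - r / (k ^ 2 * (k + 1)))) ∧
    (∀ k : ℕ, 1 ≤ k → k * (k + 1) ≤ r → r ≤ (k + 1) ^ 2 →
      IsLeast {m : ℝ | ∃ a b : Finset (Fin r) → ℝ, Feasible a b ∧ value a b = m}
        (1 / k + 2 / (k + 1) - r / (k * (k + 1) ^ 2))) := by
  -- the two bounds
  have boundA : ∀ k : ℕ, 1 ≤ k → r ≤ k * (k + 1) → ∀ a b : Finset (Fin r) → ℝ, Feasible a b →
      ∀ m : ℝ, (∀ i, marg a i + marg b i ≤ m) →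
      (∃ R S, 0 < a R ∧ 0 < b S ∧ 1 / m < ∑ i ∈ R ∩ S, 1 / (marg a i + marg b i)) →
      (2 / k + 1 / (k + 1) - r / (k ^ 2 * (k + 1)) : ℝ) < m := by
    intro k hk h2 a b hab m hm hs
    have h := lowerA hab hm hs hk h2
    have hkR : (0 : ℝ) < k := by exact_mod_cast hk
    have e : (2 / k + 1 / (k + 1) - r / (k ^ 2 * (k + 1)) : ℝ) =
        (3 * (k : ℝ) ^ 2 + 2 * k - r) / (k ^ 2 * (k + 1)) := by
      field_simp
      ring
    rw [e, div_lt_iff₀ (by positivity)]
    linarith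
  have boundB : ∀ k : ℕ, 1 ≤ k → k * (k + 1) ≤ r → r < (k + 1) ^ 2 →
      ∀ a b : Finset (Fin r) → ℝ, Feasible a b →
      ∀ m : ℝ, (∀ i, marg a i + marg b i ≤ m) →
      (∃ R S, 0 < a R ∧ 0 < b S ∧ 1 / m < ∑ i ∈ R ∩ S, 1 / (marg a i + marg b i)) →
      (1 / k + 2 / (k + 1) - r / (k * (k + 1) ^ 2) : ℝ) < m := by
    intro k hk h1 h2 a b hab m hm hs
    have h := lowerB hab hm hs hk h1 h2
    have hkR : (0 : ℝ) < k := by exact_mod_cast hk
    have e : (1 / k + 2 / (k + 1) - r / (k * (k + 1) ^ 2) : ℝ) =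
        (3 * (k : ℝ) ^ 2 + 4 * k + 1 - r) / (k * (k + 1) ^ 2) := by
      field_simp
      ring
    rw [e, div_lt_iff₀ (by positivity)]
    linarith
  -- the two solutions
  have solA : ∀ k : ℕ, 1 ≤ k → k ^ 2 ≤ r → r ≤ k * (k + 1) →
      ∃ a b : Finset (Fin r) → ℝ, Feasible a b ∧
        value a b = 2 / k + 1 / (k + 1) - r / (k ^ 2 * (k + 1)) := by
    intro k hk h1 h2
    obtain ⟨a, b, hab, hV⟩ := exists_comp (r := r) (j := k) (l := k) hk hk (by nlinarith) h2
      (by nlinarith)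
    refine ⟨a, b, hab, ?_⟩
    rw [value_of_const hr hV]
    have hkR : (0 : ℝ) < k := by exact_mod_cast hk
    field_simp
    ring
  have solB : ∀ k : ℕ, 1 ≤ k → k * (k + 1) ≤ r → r ≤ (k + 1) ^ 2 →
      ∃ a b : Finset (Fin r) → ℝ, Feasible a b ∧
        value a b = 1 / k + 2 / (k + 1) - r / (k * (k + 1) ^ 2) := by
    intro k hk h1 h2
    obtain ⟨a, b, hab, hV⟩ := exists_comp (r := r) (j := k + 1) (l := k) (by omega) hk
      (by nlinarith) (by nlinarith) (by nlinarith)
    refine ⟨a, b, hab, ?_⟩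
    rw [value_of_const hr hV]
    have hkR : (0 : ℝ) < k := by exact_mod_cast hk
    push_cast
    field_simp
    ring
  have leastA : ∀ k : ℕ, 1 ≤ k → k ^ 2 ≤ r → r ≤ k * (k + 1) →
      IsLeast {m : ℝ | ∃ a b : Finset (Fin r) → ℝ, Feasible a b ∧ value a b = m}
        (2 / k + 1 / (k + 1) - r / (k ^ 2 * (k + 1))) := by
    intro k hk h1 h2
    refine ⟨solA k hk h1 h2, ?_⟩
    rintro m ⟨a, b, hab, rfl⟩
    by_contra hn
    push Not at hn
    have hlt : ∀ i, marg a i + marg b i < 2 / k + 1 / (k + 1) - r / (k ^ 2 * (k + 1)) :=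
      fun i => lt_of_le_of_lt (le_value a b i) hn
    have := boundA k hk h2 a b hab _ (fun i => (hlt i).le) (strict_of_lt hab hlt)
    exact lt_irrefl _ this
  have leastB' : ∀ k : ℕ, 1 ≤ k → k * (k + 1) ≤ r → r < (k + 1) ^ 2 →
      IsLeast {m : ℝ | ∃ a b : Finset (Fin r) → ℝ, Feasible a b ∧ value a b = m}
        (1 / k + 2 / (k + 1) - r / (k * (k + 1) ^ 2)) := by
    intro k hk h1 h2
    refine ⟨solB k hk h1 h2.le, ?_⟩
    rintro m ⟨a, b, hab, rfl⟩
    by_contra hn
    push Not at hn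
    have hlt : ∀ i, marg a i + marg b i < 1 / k + 2 / (k + 1) - r / (k * (k + 1) ^ 2) :=
      fun i => lt_of_le_of_lt (le_value a b i) hn
    have := boundB k hk h1 h2 a b hab _ (fun i => (hlt i).le) (strict_of_lt hab hlt)
    exact lt_irrefl _ this
  refine ⟨?_, leastA, ?_⟩
  · rintro a b ⟨hab, hopt⟩ ⟨R, S, h2, hR, hS⟩
    have hs := strict_of_two hab (le_value a b) hR hS h2
    set k := Nat.sqrt r with hk
    have hk1 : 1 ≤ k := by
      rw [hk]
      exact Nat.sqrt_pos.2 hr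
    have hk2 : k ^ 2 ≤ r := Nat.sqrt_le' r
    have hk3 : r < (k + 1) ^ 2 := Nat.lt_succ_sqrt' r
    rcases le_total r (k * (k + 1)) with h | h
    · obtain ⟨a', b', hab', hv⟩ := solA k hk1 hk2 h
      have h3 := hopt a' b' hab'
      rw [hv] at h3
      have h4 := boundA k hk1 h a b hab _ (le_value a b) hs
      linarith
    · obtain ⟨a', b', hab', hv⟩ := solB k hk1 h hk3.le
      have h3 := hopt a' b' hab'
      rw [hv] at h3
      have h4 := boundB k hk1 h hk3 a b hab _ (le_value a b) hs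
      linarith
  · intro k hk h1 h2
    rcases h2.lt_or_eq with h | h
    · exact leastB' k hk h1 h
    · -- `r = (k+1)²`: the first formula for `k + 1`
      have h3 := leastA (k + 1) (by omega) h.ge (by rw [h]; nlinarith)
      have hkR : (0 : ℝ) < k := by exact_mod_cast hk
      have hrR : (r : ℝ) = (k + 1) ^ 2 := by
        rw [h]; push_cast; ring
      convert h3 using 1
      rw [hrR]
      push_cast
      field_simp
      ring

end Pool.Agent.Results.MP_ab344f_co.SingleIntersections
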